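import Pool.Agent.Q28.TM.GrpE
import Pool.Agent.Q87.TM.SOC
import Pool.Agent.Q87.TM.KAP
import Pool.Agent.Q87.TM.THETA
import Pool.Agent.Q87.TM.LEMN
import Pool.Agent.Q202.TM.Chain
import Pool.Agent.Q202.TM.Bas
import Pool.Agent.Q202.TM.Kul
import Pool.Agent.Q247.TM.CLO
import Pool.Agent.Q247.TM.FA
import Pool.Agent.Q102.TM.Ext

/-!
# Tomkinson's question on FC-groups residually with finite derived subgroup: the answer is yes

Let `G` be an FC-group (of any cardinality) which is residually in the class of groups with finite
derived subgroup.  Then `G / Z(G)` is embeddable in a restricted direct product of finite groups.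

More generally this holds for every FC-group in which no nontrivial element of `Z(G) ∩ G'` is
an `n`-th power of an element of `Z(G) ∩ G'` for every `n > 0`.

Idea of the proof: the group of all functions of finite range on the set of conjugacy classes, with
value at the class of `g` in the finite group of the `z ∈ Z(G) ∩ G'` such that `g z` is
conjugate to `g`, is a direct sum of cyclic groups; with a decomposition of it one builds
retractions of an extension of the group of finitary locally inner automorphisms onto subgroups
belonging to a closed unbounded system of sets, and finishes by induction on the cardinality.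
-/

set_option autoImplicit false

namespace Pool.Agent.Results.MP_d93556_al.AllCardinalities

/-- `Γ` is isomorphic to a subgroup of a restricted direct product of finite groups. -/
def EmbedsInDirectProductOfFinite (Γ : Type) [Group Γ] : Prop :=
  ∃ (ι : Type) (F : ι → Type) (_ : ∀ i, Group (F i)) (_ : ∀ i, Finite (F i))
    (f : Γ →* ((i : ι) → F i)), Function.Injective f ∧ ∀ x, {i : ι | f x i ≠ 1}.Finite

theorem result (G : Type) [Group G]
    (hFC : ∀ g : G, {h : G | IsConj g h}.Finite) :
    ((∀ g : G, g ≠ 1 → ∃ (N : Subgroup G) (_ : N.Normal), g ∉ N ∧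
        Finite ↥(commutator (G ⧸ N))) →
      EmbedsInDirectProductOfFinite (G ⧸ Subgroup.center G)) ∧
    ((∀ z : G, z ∈ Subgroup.center G → z ∈ commutator G → z ≠ 1 → ∃ n : ℕ, 0 < n ∧
        ∀ w : G, w ∈ Subgroup.center G → w ∈ commutator G → w ^ n ≠ z) →
      EmbedsInDirectProductOfFinite (G ⧸ Subgroup.center G)) := by
  have h : (∀ z : G, z ∈ Subgroup.center G → z ∈ commutator G → z ≠ 1 → ∃ n : ℕ, 0 < n ∧
        ∀ w : G, w ∈ Subgroup.center G → w ∈ commutator G → w ^ n ≠ z) →
      EmbedsInDirectProductOfFinite (G ⧸ Subgroup.center G) := fun hsep =>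
    Q28.TM.main_sep
      (Q247.TM.t_FA (Q87.TM.t_SOC Q87.TM.t_KAP Q87.TM.t_THETA Q87.TM.t_LEMN Q247.TM.t_CLO
        Q202.TM.t_CHAIN) Q202.TM.t_BAS Q202.TM.t_KUL)
      Q102.TM.t_EXTF Q102.TM.t_EXT G hFC hsep
  exact ⟨fun hres => h (fun z h1 h2 h3 => Q28.TM.sep_of_res hres z h1 h2 h3), h⟩

end Pool.Agent.Results.MP_d93556_al.AllCardinalities
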